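import Pool.Agent.helper47.SC.Spec

/-!
# Row sc:HSM: the series `h` is smooth on `X`
-/

set_option autoImplicit false

open scoped Topology ContDiff
open Set Filter Metric MeasureTheory

namespace Pool.Agent.SC

theorem HSM (h1 : LTS_stmt) (h2 : GGB_stmt) : HSM_stmt := by
  intro s m M hm hs hM c hc
  obtain ⟨-, -, -, -, g5, g6, g7, g8⟩ := h2 s m hm hs
  have key := h1 ℂ C2 ℂ (fun k p => (c * BB s m k p) ^ (M k)) (XX s m) g8
    (fun i => ((contDiff_const.mul (g7 i)).pow _).contDiffOn) ?_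
  · exact key.1
  intro p hp
  obtain ⟨hp2, k, hk⟩ := hp
  refine ⟨{q | ‖GG s m k q‖ < 1} ∩ ({q | ‖q.2‖ < 1 / 4} ∩ {q | ‖q.1‖ < ‖p.1‖ + 1}), ?_, ?_⟩
  · have o1 : IsOpen {q : C2 | ‖GG s m k q‖ < 1} :=
      isOpen_lt (g6 k).continuous.norm continuous_const
    have o2 : IsOpen {q : C2 | ‖q.2‖ < 1 / 4} :=
      isOpen_lt continuous_snd.norm continuous_const
    have o3 : IsOpen {q : C2 | ‖q.1‖ < ‖p.1‖ + 1} :=
      isOpen_lt continuous_fst.norm continuous_const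
    refine (o1.inter (o2.inter o3)).mem_nhds ⟨hk, hp2, ?_⟩
    show ‖p.1‖ < ‖p.1‖ + 1
    linarith
  · intro n
    refine ⟨fun i => (1 / 2) ^ i, (k + 1) + (n + ⌈‖p.1‖ + 1⌉₊), summable_geometric_two, ?_⟩
    intro i hi q hq
    obtain ⟨hq1, hq2, hq3⟩ := hq
    have hq1' : ‖GG s m k q‖ < 1 := hq1
    have hq2' : ‖q.2‖ < 1 / 4 := hq2
    have hq3' : ‖q.1‖ < ‖p.1‖ + 1 := hq3
    have hi1 : k < i := by omega
    have hi2 : n ≤ i := by omega
    have hi3 : ⌈‖p.1‖ + 1⌉₊ ≤ i := by omega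
    have hi4 : ‖p.1‖ + 1 ≤ (i : ℝ) := (Nat.le_ceil _).trans (by exact_mod_cast hi3)
    exact hM.der c hc i n hi2 q (by linarith) (by linarith) (g5 k q hq2' hq1' i hi1)

end Pool.Agent.SC
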