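import Pool.Agent.helper82.SC.SpecA

/-! # sp: BCN: the faces touching a connected set of sites are connected -/

namespace Pool.Agent.helper82.SC

open Relation

/-- the step relation -/
def BCN_R (D : Dom) (π : Set V) (f g : F) : Prop := (∃ d, g = tw f d) ∧ D.Bf π g

theorem BCN_Bf (D : Dom) (π : Set V) (hπ : π ⊆ (D.U : Set V)) {f : F} {d : Fin 3}
    (h : S f d ∈ π) : D.Bf π f := ⟨⟨d, hπ h⟩, d, h⟩

/-- turning around a site -/
theorem BCN_ring (D : Dom) (π : Set V) (hπ : π ⊆ (D.U : Set V)) (v : V) (hv : v ∈ π) (f : F)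
    (d : Fin 3) (h : S f d = v) :
    ReflTransGen (BCN_R D π) (v, false) f ∧ ReflTransGen (BCN_R D π) f (v, false) := by
  obtain ⟨i, j⟩ := v
  have r1 : BCN_R D π ((i, j), false) ((i - 1, j), true) :=
    ⟨⟨2, by simp [tw]⟩, BCN_Bf D π hπ (d := 2) (by simpa [S] using hv)⟩
  have r2 : BCN_R D π ((i - 1, j), true) ((i - 1, j), false) :=
    ⟨⟨1, by simp [tw]⟩, BCN_Bf D π hπ (d := 1) (by simpa [S] using hv)⟩
  have r3 : BCN_R D π ((i - 1, j), false) ((i - 1, j - 1), true) :=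
    ⟨⟨0, by simp [tw]⟩, BCN_Bf D π hπ (d := 0) (by simpa [S] using hv)⟩
  have r4 : BCN_R D π ((i - 1, j - 1), true) ((i, j - 1), false) :=
    ⟨⟨2, by simp [tw]⟩, BCN_Bf D π hπ (d := 2) (by simpa [S] using hv)⟩
  have r5 : BCN_R D π ((i, j - 1), false) ((i, j - 1), true) :=
    ⟨⟨1, by simp [tw]⟩, BCN_Bf D π hπ (d := 1) (by simpa [S] using hv)⟩
  have r6 : BCN_R D π ((i, j - 1), true) ((i, j), false) :=
    ⟨⟨0, by simp [tw]⟩, BCN_Bf D π hπ (d := 0) (by simpa [S] using hv)⟩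
  have a1 := ReflTransGen.single r1
  have a2 := a1.tail r2
  have a3 := a2.tail r3
  have a4 := a3.tail r4
  have a5 := a4.tail r5
  have b5 := ReflTransGen.single r6
  have b4 := b5.head r5
  have b3 := b4.head r4
  have b2 := b3.head r3
  have b1 := b2.head r2
  obtain ⟨⟨k, l⟩, t⟩ := f
  cases t <;> fin_cases d
  · simp [S] at h
    obtain ⟨rfl, rfl⟩ := h
    exact ⟨ReflTransGen.refl, ReflTransGen.refl⟩
  · simp [S] at h
    obtain ⟨rfl, rfl⟩ := h
    rw [add_sub_cancel_right] at a2 b2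
    exact ⟨a2, b2⟩
  · simp [S] at h
    obtain ⟨rfl, rfl⟩ := h
    rw [add_sub_cancel_right] at a4 b4
    exact ⟨a4, b4⟩
  · simp [S] at h
    obtain ⟨rfl, rfl⟩ := h
    rw [add_sub_cancel_right, add_sub_cancel_right] at a3 b3
    exact ⟨a3, b3⟩
  · simp [S] at h
    obtain ⟨rfl, rfl⟩ := h
    rw [add_sub_cancel_right] at a5 b5
    exact ⟨a5, b5⟩
  · simp [S] at h
    obtain ⟨rfl, rfl⟩ := h
    rw [add_sub_cancel_right] at a1 b1
    exact ⟨a1, b1⟩

theorem BCN_con (D : Dom) (π : Set V) (hπ : π ⊆ (D.U : Set V)) (u v : V) (h : Con π u v) :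
    v ∈ π ∧ ReflTransGen (BCN_R D π) (u, false) (v, false) := by
  obtain ⟨hu, h⟩ := h
  induction h with
  | refl => exact ⟨hu, ReflTransGen.refl⟩
  | tail _ hbc ih =>
    obtain ⟨hb, ih⟩ := ih
    obtain ⟨hadj, hc⟩ := hbc
    obtain ⟨x, hx1, hx2⟩ := hadj.exists_dart
    refine ⟨hc, ih.trans ?_⟩
    exact (BCN_ring D π hπ _ hb x.1 _ hx1).1.trans (BCN_ring D π hπ _ hc x.1 _ hx2).2

/-- BCN. -/
theorem BCN : BCN_stmt := by
  intro D π hπ hc f g hf hg
  obtain ⟨_, d, hd⟩ := hf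
  obtain ⟨_, e, he⟩ := hg
  have h := BCN_con D π hπ _ _ (hc _ hd _ he)
  exact ((BCN_ring D π hπ _ hd f d rfl).2.trans h.2).trans (BCN_ring D π hπ _ he g e rfl).1

end Pool.Agent.helper82.SC
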