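import Pool.Agent.helper82.SC.SpecC

/-! # sp: FM: the observables of the square form a family -/

namespace Pool.Agent.helper82.SC

open Relation Filter Topology Complex

theorem FM_ext : ∀ D D' : Dom, D.U = D'.U → D.sec = D'.sec → D.a = D'.a → D = D' := by
  rintro ⟨U, sec, a, _, _, _, _, _, _, _, _, _⟩ ⟨U', sec', a', _, _, _, _, _, _, _, _, _⟩ h1 h2 h3
  simp only at h1 h2 h3
  subst h1 h2 h3
  rfl

theorem FM_unique {D D' : Dom} {n : ℕ} (h : IsSq D n) (h' : IsSq D' n) : D = D' :=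
  FM_ext D D' (h.1.trans h'.1.symm) (funext fun v => (h.2.1 v).trans (h'.2.1 v).symm)
    (funext fun m => (h.2.2 m).trans (h'.2.2 m).symm)

/-- FM. -/
theorem FM (hDS : DS_stmt) (hSUM : SUM_stmt) (hSY : SY_stmt) (hLR : LR_stmt) (hEQ : EQ_stmt)
    (hBC : BC_stmt) (hBA : BA_stmt) : FM_stmt := by
  classical
  choose D hD using hDS
  let P : ℕ → Fin 3 → Dart → ℝ := fun n j x => if hn : 1 ≤ n then (D n hn).P j x else 0
  have hP : ∀ n (hn : 1 ≤ n) j x, P n j x = (D n hn).P j x := by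
    intro n hn j x
    simp only [P, dif_pos hn]
  have hU : ∀ n (hn : 1 ≤ n), (D n hn).U = Usq n := fun n hn => (hD n hn).1
  have hFU : ∀ n (hn : 1 ≤ n) f, FUn n f → (D n hn).FU f := by
    intro n hn f hf
    obtain ⟨d, hd⟩ := hf
    exact ⟨d, by rw [hU]; exact hd⟩
  have hnn : ∀ n (hn : 1 ≤ n) j x, 0 ≤ (D n hn).P j x := by
    intro n hn j x
    unfold Dom.P
    positivity
  refine ⟨P, ?_, ?_⟩
  · constructor
    · intro n hn j x hx
      rw [hP n hn]
      refine ⟨hnn n hn j x, ?_⟩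
      rw [← hSUM (D n hn) x (hFU n hn _ hx)]
      exact Finset.single_le_sum (f := fun j => (D n hn).P j x) (fun i _ => hnn n hn i x)
        (Finset.mem_univ j)
    · intro n hn x hx
      rw [← hSUM (D n hn) x (hFU n hn _ hx)]
      exact Finset.sum_congr rfl fun j _ => hP n hn j x
    · intro n hn j x
      rw [hP n hn, hP n hn]
      exact (hSY (D n hn) x).2.2 j
    · intro n hn f hf
      have h1 : (D n hn).FU f := hFU n hn f ⟨0, hf 0⟩
      have h2 : Inner (D n hn) f := fun d => Or.inl (by rw [hU]; exact hf d)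
      rw [← hLR (D n hn) f h1 h2]
      refine Finset.sum_congr rfl fun d _ => Finset.sum_congr rfl fun j _ => ?_
      rw [hP n hn]
    · intro ε hε
      obtain ⟨δ, hδ, N, h⟩ := hEQ ε hε
      refine ⟨δ, hδ, max N 1, fun n hn x y hx hy hxy j => ?_⟩
      have hn1 : 1 ≤ n := (le_max_right _ _).trans hn
      rw [hP n hn1, hP n hn1]
      exact h n ((le_max_left _ _).trans hn) _ (hD n hn1) x y (hFU n hn1 _ hx) (hFU n hn1 _ hy) hxy j
    · intro ε hε
      obtain ⟨δ, hδ, N, h⟩ := hBC ε hε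
      refine ⟨δ, hδ, max N 1, fun n hn m x hx hxy => ?_⟩
      have hn1 : 1 ≤ n := (le_max_right _ _).trans hn
      rw [hP n hn1]
      exact h n ((le_max_left _ _).trans hn) _ (hD n hn1) m x (hFU n hn1 _ hx) hxy
    · intro ε hε
      obtain ⟨δ, hδ, N, h⟩ := hBA ε hε
      refine ⟨δ, hδ, max N 1, fun n hn j x w hx hw hxy => ?_⟩
      have hn1 : 1 ≤ n := (le_max_right _ _).trans hn
      rw [hP n hn1]
      exact h n ((le_max_left _ _).trans hn) _ (hD n hn1) j x w (hFU n hn1 _ hx) hw hxy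
  · intro n hn D' hD' j x
    rw [hP n hn, FM_unique (hD n hn) hD']

end Pool.Agent.helper82.SC
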